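import Pool.Agent.Y969.GP.Def2

set_option autoImplicit false

/-!
Project GP (helper969): holomorphy and continuity of `Ps`.
-/

namespace Pool.Agent.Y185.GP

open Complex Filter Topology MeasureTheory Set
open Pool.Agent.TH612.CF (lh FH Tb dg FH_diff FH_cont)
open Pool.Agent.Y969.GP

noncomputable section

theorem Z1_tendsto : Tendsto (fun s : ℂ => s * riemannZeta (1 + 2 * s)) (𝓝[≠] 0) (𝓝 (1 / 2)) := by
  have h0 : Tendsto (fun s : ℂ => 1 + 2 * s) (𝓝[≠] 0) (𝓝[≠] 1) := by
    apply tendsto_nhdsWithin_of_tendsto_nhds_of_eventually_within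
    · have : Continuous fun s : ℂ => 1 + 2 * s := by fun_prop
      have h := (this.tendsto 0).mono_left (nhdsWithin_le_nhds (s := {0}ᶜ))
      simpa using h
    · filter_upwards [self_mem_nhdsWithin] with s hs
      intro h
      apply hs
      have h2 : 1 + 2 * s = 1 := h
      have : 2 * s = 0 := by linear_combination h2
      simpa using this
  have h1 := (riemannZeta_residue_one.comp h0).const_mul (1 / 2 : ℂ)
  rw [mul_one] at h1
  refine h1.congr fun s => ?_
  simp only [Function.comp]
  ring

theorem Z1_diff : Differentiable ℂ Z1 := by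
  have hne : ∀ s : ℂ, s ≠ 0 → DifferentiableAt ℂ Z1 s := by
    intro s hs
    have h1 : DifferentiableAt ℂ (fun s : ℂ => s * riemannZeta (1 + 2 * s)) s := by
      refine differentiableAt_id.mul ?_
      have h2 : DifferentiableAt ℂ riemannZeta (1 + 2 * s) := by
        apply differentiableAt_riemannZeta
        intro h
        apply hs
        have : 2 * s = 0 := by linear_combination h
        simpa using this
      exact h2.comp s (by fun_prop)
    refine h1.congr_of_eventuallyEq ?_
    filter_upwards [isOpen_ne.mem_nhds hs] with z hz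
    unfold Z1
    rw [Function.update_of_ne hz]
  intro s
  by_cases hs : s = 0
  · subst hs
    refine (analyticAt_of_differentiable_on_punctured_nhds_of_continuousAt ?_ ?_).differentiableAt
    · filter_upwards [self_mem_nhdsWithin] with z hz
      exact hne z hz
    · unfold Z1
      rw [continuousAt_update_same]
      exact Z1_tendsto
  · exact hne s hs

theorem upd_diff {k : ℕ} (s : Fin k → ℂ) (j i : Fin k) :
    Differentiable ℂ fun z : ℂ => Function.update s j z i := by
  by_cases h : i = j
  · subst h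
    simp only [Function.update_self]
    exact differentiable_id
  · simp only [Function.update_of_ne h]
    exact differentiable_const _

theorem cc_cont {n : ℕ} (i : Fin (n + 1)) : Continuous fun c : Fin n → ℝ => cc c i := by
  refine Fin.cases ?_ (fun i => ?_) i
  · simp only [cc, Fin.cons_zero]
    exact continuous_const
  · simp only [cc, Fin.cons_succ]
    exact continuous_apply i

theorem Ps_diffAt {n : ℕ} (c : Fin n → ℝ) (j : Fin (n + 1)) (s : Fin (n + 1) → ℂ)
    (hF : DifferentiableAt ℂ (fun z => FH (av c (Function.update s j z))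
      (bv c (Function.update s j z))) (s j))
    (hne : ∀ i l, i ≠ l → 1 + s i + s l + I * (cc c i - cc c l) ≠ 1) :
    DifferentiableAt ℂ (fun z => Ps c (Function.update s j z)) (s j) := by
  unfold Ps
  refine (hF.mul ?_).mul ?_
  · refine DifferentiableAt.fun_finsetProd fun i _ => ?_
    exact (Z1_diff _).comp _ (upd_diff s j i _)
  · refine DifferentiableAt.fun_finsetProd fun i _ => ?_
    refine DifferentiableAt.fun_finsetProd fun l hl => ?_
    have h1 : DifferentiableAt ℂ riemannZeta (1 + Function.update s j (s j) i +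
        Function.update s j (s j) l + I * (cc c i - cc c l)) := by
      rw [Function.update_eq_self]
      exact differentiableAt_riemannZeta (hne i l (Finset.ne_of_mem_erase hl).symm)
    have h2 : DifferentiableAt ℂ (fun z : ℂ => 1 + Function.update s j z i +
        Function.update s j z l + I * (cc c i - cc c l)) (s j) :=
      (((differentiableAt_const _).add (upd_diff s j i _)).add (upd_diff s j l _)).add_const _
    exact DifferentiableAt.comp (g := riemannZeta) (f := fun z : ℂ => 1 + Function.update s j z i +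
        Function.update s j z l + I * (cc c i - cc c l)) (s j) h1 h2

theorem Ps_contAt {n : ℕ} (p : (Fin n → ℝ) × (Fin (n + 1) → ℂ))
    (hF : ContinuousAt (fun p : (Fin n → ℝ) × (Fin (n + 1) → ℂ) => FH (av p.1 p.2) (bv p.1 p.2)) p)
    (hne : ∀ i l, i ≠ l → 1 + p.2 i + p.2 l + I * (cc p.1 i - cc p.1 l) ≠ 1) :
    ContinuousAt (fun p : (Fin n → ℝ) × (Fin (n + 1) → ℂ) => Ps p.1 p.2) p := by
  unfold Ps
  refine (hF.mul ?_).mul ?_
  · refine tendsto_finsetProd _ fun i _ => ?_
    have : Continuous fun p : (Fin n → ℝ) × (Fin (n + 1) → ℂ) => Z1 (p.2 i) :=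
      Z1_diff.continuous.comp (by fun_prop)
    exact this.continuousAt
  · refine tendsto_finsetProd _ fun i _ => ?_
    refine tendsto_finsetProd _ fun l hl => ?_
    have h1 : ContinuousAt riemannZeta (1 + p.2 i + p.2 l + I * (cc p.1 i - cc p.1 l)) :=
      (differentiableAt_riemannZeta (hne i l (Finset.ne_of_mem_erase hl).symm)).continuousAt
    have hci : Continuous fun p : (Fin n → ℝ) × (Fin (n + 1) → ℂ) => cc p.1 i :=
      (cc_cont i).comp continuous_fst
    have hcl : Continuous fun p : (Fin n → ℝ) × (Fin (n + 1) → ℂ) => cc p.1 l :=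
      (cc_cont l).comp continuous_fst
    have h2 : Continuous fun p : (Fin n → ℝ) × (Fin (n + 1) → ℂ) =>
        1 + p.2 i + p.2 l + I * ((cc p.1 i : ℂ) - (cc p.1 l : ℂ)) := by
      have a1 : Continuous fun p : (Fin n → ℝ) × (Fin (n + 1) → ℂ) => p.2 i := by fun_prop
      have a2 : Continuous fun p : (Fin n → ℝ) × (Fin (n + 1) → ℂ) => p.2 l := by fun_prop
      exact ((continuous_const.add a1).add a2).add (continuous_const.mul
        ((Complex.continuous_ofReal.comp hci).sub (Complex.continuous_ofReal.comp hcl)))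
    exact ContinuousAt.comp (f := fun p : (Fin n → ℝ) × (Fin (n + 1) → ℂ) =>
        1 + p.2 i + p.2 l + I * ((cc p.1 i : ℂ) - (cc p.1 l : ℂ))) h1 h2.continuousAt

theorem sep {n : ℕ} {a T : ℝ} (_ha : 0 ≤ a) {c : Fin n → ℝ} (hc : c ∈ Gd n a T) (i l : Fin (n + 1))
    (h : i ≠ l) : a ≤ |cc c i - cc c l| := by
  obtain ⟨h1, h2⟩ := hc
  induction i using Fin.cases with
  | zero =>
    induction l using Fin.cases with
    | zero => exact absurd rfl h
    | succ l =>
      simp only [cc, Fin.cons_zero, Fin.cons_succ, zero_sub, abs_neg]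
      exact (h1 l).1.trans (le_abs_self _)
  | succ i =>
    induction l using Fin.cases with
    | zero =>
      simp only [cc, Fin.cons_zero, Fin.cons_succ, sub_zero]
      exact (h1 i).1.trans (le_abs_self _)
    | succ l =>
      simp only [cc, Fin.cons_succ]
      exact h2 i l fun e => h (by rw [e])

theorem ne_one_of {x y : ℂ} {u v : ℝ} (h : |x.im + y.im| < |u - v|) :
    1 + x + y + I * ((u : ℂ) - (v : ℂ)) ≠ 1 := by
  intro h1
  have h2 := congrArg Complex.im h1
  simp at h2
  have h3 : x.im + y.im = -(u - v) := by linarith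
  rw [h3, abs_neg] at h
  exact lt_irrefl _ h

theorem av_im {n : ℕ} (c : Fin n → ℝ) (s : Fin (n + 1) → ℂ) (i : Fin (n + 1)) :
    (av c s i).im = -(s i).re := by
  simp [av]

theorem bv_im {n : ℕ} (c : Fin n → ℝ) (s : Fin (n + 1) → ℂ) (i : Fin (n + 1)) :
    (bv c s i).im = (s i).re := by
  simp [bv]

theorem av_upd_diff {n : ℕ} (c : Fin n → ℝ) (s : Fin (n + 1) → ℂ) (j i : Fin (n + 1)) :
    Differentiable ℂ fun z : ℂ => av c (Function.update s j z) i := by
  unfold av
  exact (differentiable_const _).sub ((upd_diff s j i).const_mul _)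

theorem bv_upd_diff {n : ℕ} (c : Fin n → ℝ) (s : Fin (n + 1) → ℂ) (j i : Fin (n + 1)) :
    Differentiable ℂ fun z : ℂ => bv c (Function.update s j z) i := by
  unfold bv
  exact (differentiable_const _).add ((upd_diff s j i).const_mul _)

theorem av_cont {n : ℕ} (i : Fin (n + 1)) :
    Continuous fun p : (Fin n → ℝ) × (Fin (n + 1) → ℂ) => av p.1 p.2 i := by
  unfold av
  have hci : Continuous fun p : (Fin n → ℝ) × (Fin (n + 1) → ℂ) => cc p.1 i :=
    (cc_cont i).comp continuous_fst
  have a1 : Continuous fun p : (Fin n → ℝ) × (Fin (n + 1) → ℂ) => p.2 i := by fun_prop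
  exact (Complex.continuous_ofReal.comp hci).sub (continuous_const.mul a1)

theorem bv_cont {n : ℕ} (i : Fin (n + 1)) :
    Continuous fun p : (Fin n → ℝ) × (Fin (n + 1) → ℂ) => bv p.1 p.2 i := by
  unfold bv
  have hci : Continuous fun p : (Fin n → ℝ) × (Fin (n + 1) → ℂ) => cc p.1 i :=
    (cc_cont i).comp continuous_fst
  have a1 : Continuous fun p : (Fin n → ℝ) × (Fin (n + 1) → ℂ) => p.2 i := by fun_prop
  exact (Complex.continuous_ofReal.comp hci).add (continuous_const.mul a1)

theorem t_HOL (h1 : S_FHD) (h2 : S_FHC) : S_HOL := by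
  intro n σ η H a T hη hησ hση hη16 hH haH haT
  obtain ⟨δ, hδ, hδ1, hδ2⟩ : ∃ δ : ℝ, 0 < δ ∧ 4 * δ ≤ 1 / 2 - σ - η ∧ δ ≤ 1 / 16 - η :=
    ⟨min ((1 / 2 - σ - η) / 4) (1 / 16 - η), lt_min (by linarith) (by linarith),
      by linarith [min_le_left ((1 / 2 - σ - η) / 4) (1 / 16 - η)], min_le_right _ _⟩
  have hne : ∀ c ∈ Gd n a T, ∀ j : Fin (n + 1), ∀ s ∈ Bx j σ η H, ∀ i l, i ≠ l →
      1 + s i + s l + I * (cc c i - cc c l) ≠ 1 := by
    intro c hc j s hs i l hil
    apply ne_one_of
    have a1 := sep (by linarith) hc i l hil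
    have a2 := hs.1 i
    have a3 := hs.1 l
    have a4 := abs_add_le (s i).im (s l).im
    linarith
  refine ⟨fun c hc j s hs => ?_, fun j => ?_⟩
  · refine Ps_diffAt c j s ?_ (hne c hc j s hs)
    have hU : IsOpen {z : ℂ | |z.re| < σ + δ} :=
      isOpen_lt (Complex.continuous_re.abs) continuous_const
    have h3 := h1 (n + 1) (σ + δ) (η + δ) (by linarith) (by linarith) (by linarith) (by linarith) j
      {z : ℂ | |z.re| < σ + δ} (fun z => av c (Function.update s j z))
      (fun z => bv c (Function.update s j z)) hU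
      (fun i => (av_upd_diff c s j i).differentiableOn)
      (fun i => (bv_upd_diff c s j i).differentiableOn) ?_
    · refine h3.differentiableAt (hU.mem_nhds ?_)
      show |(s j).re| < σ + δ
      rw [abs_lt]
      constructor
      · linarith [hs.2.2.1]
      · linarith [hs.2.2.2]
    · intro z hz
      have hz' : |z.re| < σ + δ := hz
      refine ⟨?_, ?_, fun i hi => ⟨?_, ?_⟩⟩
      · rw [av_im, Function.update_self, abs_neg]; exact hz'.le
      · rw [bv_im, Function.update_self]; exact hz'.le
      · rw [av_im, Function.update_of_ne hi, abs_neg]; linarith [hs.2.1 i hi]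
      · rw [bv_im, Function.update_of_ne hi]; linarith [hs.2.1 i hi]
  · intro p hp
    obtain ⟨hp1, hp2⟩ := hp
    refine (Ps_contAt p ?_ (hne p.1 hp1 j p.2 hp2)).continuousWithinAt
    have hU : IsOpen {q : (Fin n → ℝ) × (Fin (n + 1) → ℂ) | |(q.2 j).re| < σ + δ ∧
        ∀ i, i ≠ j → |(q.2 i).re| < η + δ} := by
      have e : {q : (Fin n → ℝ) × (Fin (n + 1) → ℂ) | |(q.2 j).re| < σ + δ ∧
        ∀ i, i ≠ j → |(q.2 i).re| < η + δ} = {q | |(q.2 j).re| < σ + δ} ∩
          ⋂ i : Fin (n + 1), {q | i ≠ j → |(q.2 i).re| < η + δ} := by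
        ext q; simp
      rw [e]
      have hc : ∀ i : Fin (n + 1), Continuous fun q : (Fin n → ℝ) × (Fin (n + 1) → ℂ) =>
          |(q.2 i).re| := by
        intro i
        have a1 : Continuous fun p : (Fin n → ℝ) × (Fin (n + 1) → ℂ) => p.2 i := by fun_prop
        exact (Complex.continuous_re.comp a1).abs
      refine (isOpen_lt (hc j) continuous_const).inter (isOpen_iInter_of_finite fun i => ?_)
      by_cases h : i = j
      · simp [h]
      · simp only [ne_eq, h, not_false_eq_true, true_imp_iff]
        exact isOpen_lt (hc i) continuous_const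
    have h3 := h2 (n + 1) (σ + δ) (η + δ) (by linarith) (by linarith) (by linarith) (by linarith) j
      ((Fin n → ℝ) × (Fin (n + 1) → ℂ)) _ (fun q => av q.1 q.2) (fun q => bv q.1 q.2) hU
      (fun i => (av_cont i).continuousOn) (fun i => (bv_cont i).continuousOn) ?_
    · refine h3.continuousAt (hU.mem_nhds ?_)
      refine ⟨?_, fun i hi => ?_⟩
      · rw [abs_lt]
        constructor
        · linarith [hp2.2.2.1]
        · linarith [hp2.2.2.2]
      · linarith [hp2.2.1 i hi]
    · intro q hq
      refine ⟨?_, ?_, fun i hi => ⟨?_, ?_⟩⟩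
      · rw [av_im, abs_neg]; exact hq.1.le
      · rw [bv_im]; exact hq.1.le
      · rw [av_im, abs_neg]; exact (hq.2 i hi).le
      · rw [bv_im]; exact (hq.2 i hi).le

theorem t_HOL2 (_h1 : S_FHD) (_h2 : S_FHC) : S_HOL2 := by
  intro n a T ha haT
  have hne : ∀ c ∈ Gd n a T, ∀ s : Fin (n + 1) → ℂ, (∀ i, ‖s i‖ ≤ 1 / 8) → ∀ i l, i ≠ l →
      1 + s i + s l + I * (cc c i - cc c l) ≠ 1 := by
    intro c hc s hs i l hil
    apply ne_one_of
    have a1 := sep (by linarith) hc i l hil
    have a2 := (Complex.abs_im_le_norm (s i)).trans (hs i)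
    have a3 := (Complex.abs_im_le_norm (s l)).trans (hs l)
    have a4 := abs_add_le (s i).im (s l).im
    linarith
  refine ⟨fun c hc j s hs => ?_, ?_⟩
  · refine Ps_diffAt c j s ?_ (hne c hc s hs)
    have hU : IsOpen {z : ℂ | |z.re| < 1 / 5} :=
      isOpen_lt (Complex.continuous_re.abs) continuous_const
    have h3 := FH_diff (c := 1 / 5) hU (a := fun z => av c (Function.update s j z))
      (b := fun z => bv c (Function.update s j z)) (by norm_num)
      (fun i => (av_upd_diff c s j i).differentiableOn)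
      (fun i => (bv_upd_diff c s j i).differentiableOn) ?_
    · refine h3.differentiableAt (hU.mem_nhds ?_)
      show |(s j).re| < 1 / 5
      linarith [(Complex.abs_re_le_norm (s j)).trans (hs j)]
    · intro z hz i
      have hz' : |z.re| < 1 / 5 := hz
      rw [av_im, bv_im, abs_neg]
      by_cases h : i = j
      · subst h
        rw [Function.update_self]
        exact ⟨hz'.le, hz'.le⟩
      · rw [Function.update_of_ne h]
        have := (Complex.abs_re_le_norm (s i)).trans (hs i)
        constructor <;> linarith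
  · intro p hp
    obtain ⟨hp1, hp2⟩ := hp
    have hp2' : ∀ i, ‖p.2 i‖ ≤ 1 / 8 := hp2
    refine (Ps_contAt p ?_ (hne p.1 hp1 p.2 hp2')).continuousWithinAt
    have hU : IsOpen {q : (Fin n → ℝ) × (Fin (n + 1) → ℂ) | ∀ i, |(q.2 i).re| < 1 / 5} := by
      have e : {q : (Fin n → ℝ) × (Fin (n + 1) → ℂ) | ∀ i, |(q.2 i).re| < 1 / 5} =
          ⋂ i : Fin (n + 1), {q | |(q.2 i).re| < 1 / 5} := by
        ext q; simp
      rw [e]
      refine isOpen_iInter_of_finite fun i => ?_
      have a1 : Continuous fun p : (Fin n → ℝ) × (Fin (n + 1) → ℂ) => p.2 i := by fun_prop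
      exact isOpen_lt (Complex.continuous_re.comp a1).abs continuous_const
    have h3 := FH_cont (c := 1 / 5) hU (a := fun q => av q.1 q.2) (b := fun q => bv q.1 q.2)
      (by norm_num) (fun i => (av_cont i).continuousOn) (fun i => (bv_cont i).continuousOn) ?_
    · refine h3.continuousAt (hU.mem_nhds fun i => ?_)
      linarith [(Complex.abs_re_le_norm (p.2 i)).trans (hp2' i)]
    · intro q hq i
      rw [av_im, bv_im, abs_neg]
      exact ⟨(hq i).le, (hq i).le⟩

end

end Pool.Agent.Y185.GP
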